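import Pool.Agent.TH175.CC.Iter

set_option autoImplicit false

namespace Pool.Agent.TH175.CC.BG

open Finset Function Pool.Agent.TH175.CC

variable {G X : Type} [Group G] [MulAction G X]

/-- displacement of `f` under `g` -/
noncomputable def dd (g : G) (f : X → ℝ) : ℝ := ∑' x, (f (g • x) - f x) ^ 2

theorem dd_nonneg (g : G) (f : X → ℝ) : 0 ≤ dd g f := tsum_nonneg fun _ => sq_nonneg _

theorem summ_dd (g : G) {f : X → ℝ} (hf : (support f).Finite) :
    Summable fun x => (f (g • x) - f x) ^ 2 := by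
  refine summable_fin (((support_shift g hf).union hf).subset ?_)
  intro x hx
  by_contra hcon
  simp only [Set.mem_union, mem_support, not_or, not_not] at hcon
  apply hx
  show (f (g • x) - f x) ^ 2 = 0
  rw [hcon.1, hcon.2]; norm_num

theorem dd_one (f : X → ℝ) : dd (1 : G) f = 0 := by
  unfold dd
  simp

theorem dd_mul (g h : G) {f : X → ℝ} (hf : (support f).Finite) :
    dd (g * h) f ≤ 2 * dd g f + 2 * dd h f := by
  have e1 : dd g f = ∑' x, (f (g • h • x) - f (h • x)) ^ 2 :=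
    (tsum_shift h fun x => (f (g • x) - f x) ^ 2).symm
  have s1 : Summable fun x => (f (g • h • x) - f (h • x)) ^ 2 :=
    (summ_dd g hf).comp_injective (MulAction.injective h)
  have e2 : dd h f = ∑' x, (f (h • x) - f x) ^ 2 := rfl
  rw [e1, e2, ← tsum_mul_left, ← tsum_mul_left,
    ← Summable.tsum_add (s1.mul_left 2) ((summ_dd h hf).mul_left 2)]
  refine Summable.tsum_le_tsum (fun x => ?_) (summ_dd _ hf)
    ((s1.mul_left 2).add ((summ_dd h hf).mul_left 2))
  rw [mul_smul]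
  nlinarith [sq_nonneg ((f (g • h • x) - f (h • x)) - (f (h • x) - f x))]

theorem dd_list {f : X → ℝ} (hf : (support f).Finite) (l : List G) :
    dd l.prod f ≤ 2 ^ l.length * (l.map fun g => dd g f).sum := by
  induction l with
  | nil => simp [dd_one]
  | cons g l ih =>
    rw [List.prod_cons, List.map_cons, List.sum_cons, List.length_cons]
    have h1 := dd_mul g l.prod hf
    have h2 : (1 : ℝ) ≤ 2 ^ l.length := one_le_pow₀ (by norm_num)
    have h3 := mul_le_mul_of_nonneg_right h2 (dd_nonneg g f)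
    rw [pow_succ]
    nlinarith

section cyc

variable (a : G)

theorem per_shift {ℓ : ℕ} {x : X} (hx : a ^ ℓ • x = x) (n : ℤ) : a ^ ℓ • a ^ n • x = a ^ n • x := by
  rw [← mul_smul, ← zpow_natCast, ← zpow_add, add_comm, zpow_add, mul_smul, zpow_natCast, hx]

theorem cyc_one (F : X → ℝ) {ℓ : ℕ} {z : X} (hz : a ^ ℓ • z = z) :
    ∑ i ∈ range ℓ, F (a ^ i • a • z) = ∑ i ∈ range ℓ, F (a ^ i • z) := by
  have h1 := Finset.sum_range_succ (fun i => F (a ^ i • z)) ℓ
  have h2 := Finset.sum_range_succ' (fun i => F (a ^ i • z)) ℓ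
  rw [h1] at h2
  simp only [hz, pow_zero, one_smul] at h2
  have h3 : ∑ i ∈ range ℓ, F (a ^ (i + 1) • z) = ∑ i ∈ range ℓ, F (a ^ i • a • z) :=
    Finset.sum_congr rfl fun i _ => by rw [pow_succ, mul_smul]
  rw [h3] at h2
  linarith

theorem cyc (F : X → ℝ) {ℓ : ℕ} {x : X} (hx : a ^ ℓ • x = x) (n : ℤ) :
    ∑ i ∈ range ℓ, F (a ^ i • a ^ n • x) = ∑ i ∈ range ℓ, F (a ^ i • x) := by
  induction n with
  | zero => simp
  | succ n ih =>
    rw [← ih, ← cyc_one a F (per_shift a hx n)]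
    refine Finset.sum_congr rfl fun i _ => ?_
    rw [← mul_smul a, ← zpow_one_add, add_comm]
  | pred n ih =>
    rw [← ih, ← cyc_one a F (per_shift a hx (-(n : ℤ) - 1))]
    refine Finset.sum_congr rfl fun i _ => ?_
    rw [← mul_smul a, ← zpow_one_add]
    congr 3
    ring_nf

theorem blocks (F : X → ℝ) (hF : ∀ z, 0 ≤ F z) {ℓ m : ℕ} (hℓ : 0 < ℓ) (hm : ℓ ≤ m) {z : X}
    (hz : a ^ ℓ • z = z) :
    (m : ℝ) * ∑ i ∈ range ℓ, F (a ^ i • z) ≤ 2 * ℓ * ∑ i ∈ range m, F (a ^ i • z) := by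
  have hq : ∀ q : ℕ, a ^ (q * ℓ) • z = z := by
    intro q
    induction q with
    | zero => simp
    | succ q ih => rw [Nat.succ_mul, pow_add, mul_smul, hz, ih]
  have hs : ∀ q : ℕ, ∑ i ∈ range (q * ℓ), F (a ^ i • z) = q * ∑ i ∈ range ℓ, F (a ^ i • z) := by
    intro q
    induction q with
    | zero => simp
    | succ q ih =>
      rw [Nat.succ_mul, Finset.sum_range_add, ih]
      have : ∑ i ∈ range ℓ, F (a ^ (q * ℓ + i) • z) = ∑ i ∈ range ℓ, F (a ^ i • z) :=
        Finset.sum_congr rfl fun i _ => by rw [add_comm, pow_add, mul_smul, hq]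
      rw [this]
      push_cast
      ring
  obtain ⟨q, hqd⟩ : ∃ q, q = m / ℓ := ⟨_, rfl⟩
  have h1 : q * ℓ ≤ m := by rw [hqd]; exact Nat.div_mul_le_self m ℓ
  have h2 : 1 ≤ q := by rw [hqd]; exact (Nat.one_le_div_iff hℓ).2 hm
  have h3 : m < (q + 1) * ℓ := by
    rw [hqd]
    exact Nat.lt_mul_of_div_lt (Nat.lt_succ_self _) hℓ
  have h4 : m ≤ 2 * ℓ * q := by nlinarith
  have h5 : ∑ i ∈ range (q * ℓ), F (a ^ i • z) ≤ ∑ i ∈ range m, F (a ^ i • z) :=
    Finset.sum_le_sum_of_subset_of_nonneg (Finset.range_subset_range.2 h1) fun i _ _ => hF _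
  have h6 : (m : ℝ) ≤ 2 * ℓ * q := by exact_mod_cast h4
  have h7 : 0 ≤ ∑ i ∈ range ℓ, F (a ^ i • z) := Finset.sum_nonneg fun i _ => hF _
  calc (m : ℝ) * ∑ i ∈ range ℓ, F (a ^ i • z) ≤ (2 * ℓ * q) * ∑ i ∈ range ℓ, F (a ^ i • z) :=
        mul_le_mul_of_nonneg_right h6 h7
    _ = 2 * ℓ * ∑ i ∈ range (q * ℓ), F (a ^ i • z) := by rw [hs]; ring
    _ ≤ _ := mul_le_mul_of_nonneg_left h5 (by positivity)

/-- pointwise bound -/
theorem pointwise {f : X → ℝ} (hf : (support f).Finite) (h0 : ∀ x, 0 ≤ f x)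
    (hs : ∑' x, f x ≤ 1) (m : ℕ) (x : X) (n : ℤ) :
    (m : ℝ) * (f (a ^ n • x) - f x) ^ 2 ≤
      4 * ∑ i ∈ range m, (f (a ^ i • a ^ n • x) - f (a ^ n • x)) ^ 2 +
      4 * ∑ i ∈ range m, (f (a ^ i • x) - f x) ^ 2 + 2 * f (a ^ n • x) + 2 * f x := by
  classical
  by_cases hx : ∃ ℓ, 0 < ℓ ∧ ℓ ≤ m ∧ a ^ ℓ • x = x
  · obtain ⟨ℓ, hℓ, hm, hx⟩ := hx
    have hℓ' : (0 : ℝ) < ℓ := by exact_mod_cast hℓ
    have k1 : (ℓ : ℝ) * (f (a ^ n • x) - f x) ^ 2 ≤
        2 * ∑ i ∈ range ℓ, (f (a ^ i • a ^ n • x) - f (a ^ n • x)) ^ 2 +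
        2 * ∑ i ∈ range ℓ, (f (a ^ i • x) - f x) ^ 2 := by
      rw [cyc a (fun z => (f z - f (a ^ n • x)) ^ 2) hx n, Finset.mul_sum, Finset.mul_sum,
        ← Finset.sum_add_distrib]
      have : (ℓ : ℝ) * (f (a ^ n • x) - f x) ^ 2 = ∑ i ∈ range ℓ, (f (a ^ n • x) - f x) ^ 2 := by
        rw [Finset.sum_const, nsmul_eq_mul, Finset.card_range]
      rw [this]
      refine Finset.sum_le_sum fun i _ => ?_
      nlinarith [sq_nonneg ((f (a ^ i • x) - f (a ^ n • x)) + (f (a ^ i • x) - f x))]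
    have k2 := blocks a (fun z => (f z - f x) ^ 2) (fun z => sq_nonneg _) hℓ hm hx
    have k3 := blocks a (fun z => (f z - f (a ^ n • x)) ^ 2) (fun z => sq_nonneg _) hℓ hm
      (per_shift a hx n)
    have hm' : (0 : ℝ) ≤ m := by positivity
    have k4 := mul_le_mul_of_nonneg_left k1 hm'
    have k5 : (ℓ : ℝ) * ((m : ℝ) * (f (a ^ n • x) - f x) ^ 2) ≤ ℓ *
      (4 * ∑ i ∈ range m, (f (a ^ i • a ^ n • x) - f (a ^ n • x)) ^ 2 +
      4 * ∑ i ∈ range m, (f (a ^ i • x) - f x) ^ 2) := by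
      nlinarith [mul_le_mul_of_nonneg_left k1 hm', k2, k3]
    have k6 := le_of_mul_le_mul_left k5 hℓ'
    have := h0 x
    have := h0 (a ^ n • x)
    linarith
  · have long : ∀ z : X, (¬ ∃ ℓ, 0 < ℓ ∧ ℓ ≤ m ∧ a ^ ℓ • z = z) →
        (m : ℝ) * f z ^ 2 ≤ ∑ i ∈ range m, (f (a ^ i • z) - f z) ^ 2 + 2 * f z := by
      intro z hz
      have hinj : Set.InjOn (fun i => a ^ i • z) (range m : Finset ℕ) := by
        have aux : ∀ i j : ℕ, i < j → j < m → a ^ i • z = a ^ j • z → False := by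
          intro i j hij hj he
          apply hz
          refine ⟨j - i, by omega, by omega, ?_⟩
          have : a ^ j = a ^ i * a ^ (j - i) := by rw [← pow_add]; congr 1; omega
          rw [this, mul_smul] at he
          exact (MulAction.injective (a ^ i) he).symm
        intro i hi j hj he
        simp only [Finset.coe_range, Set.mem_Iio] at hi hj
        rcases lt_trichotomy i j with h | h | h
        · exact (aux i j h hj he).elim
        · exact h
        · exact (aux j i h hi he.symm).elim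
      have h1 : ∑ i ∈ range m, f (a ^ i • z) ≤ 1 := by
        rw [← Finset.sum_image (f := f) hinj]
        exact ((summable_fin hf).sum_le_tsum _ fun x _ => h0 x).trans hs
      have h2 : ∑ i ∈ range m, (f (a ^ i • z) - f z) ^ 2 ≥
          m * f z ^ 2 - 2 * f z * ∑ i ∈ range m, f (a ^ i • z) := by
        have : m * f z ^ 2 - 2 * f z * ∑ i ∈ range m, f (a ^ i • z) =
            ∑ i ∈ range m, (f z ^ 2 - 2 * f z * f (a ^ i • z)) := by
          rw [Finset.sum_sub_distrib, Finset.sum_const, nsmul_eq_mul, Finset.card_range,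
            Finset.mul_sum]
        rw [this]
        refine Finset.sum_le_sum fun i _ => ?_
        nlinarith [sq_nonneg (f (a ^ i • z))]
      have h3 : 2 * f z * ∑ i ∈ range m, f (a ^ i • z) ≤ 2 * f z * 1 :=
        mul_le_mul_of_nonneg_left h1 (by have := h0 z; linarith)
      linarith
    have l1 := long x hx
    have l2 := long (a ^ n • x) (by
      rintro ⟨ℓ, q1, q2, q3⟩
      apply hx
      refine ⟨ℓ, q1, q2, ?_⟩
      have := per_shift a q3 (-n)
      rwa [← mul_smul (a ^ (-n)), ← zpow_add, neg_add_cancel, zpow_zero, one_smul] at this)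
    have p1 : 0 ≤ ∑ i ∈ range m, (f (a ^ i • a ^ n • x) - f (a ^ n • x)) ^ 2 :=
      Finset.sum_nonneg fun i _ => sq_nonneg _
    have p2 : 0 ≤ ∑ i ∈ range m, (f (a ^ i • x) - f x) ^ 2 :=
      Finset.sum_nonneg fun i _ => sq_nonneg _
    have hm' : (0 : ℝ) ≤ m := by positivity
    have p3 : (m : ℝ) * (f (a ^ n • x) - f x) ^ 2 ≤ m * f (a ^ n • x) ^ 2 + m * f x ^ 2 := by
      rw [← mul_add]
      refine mul_le_mul_of_nonneg_left ?_ hm'
      nlinarith [mul_nonneg (h0 (a ^ n • x)) (h0 x)]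
    linarith

/-- `a ^ n` moves `f` little for *all* `n` if it does so for `n < m`. -/
theorem dd_zpow {f : X → ℝ} (hf : (support f).Finite) (h0 : ∀ x, 0 ≤ f x)
    (hs : ∑' x, f x ≤ 1) (m : ℕ) (n : ℤ) :
    (m : ℝ) * dd (a ^ n) f ≤ 8 * ∑ i ∈ range m, dd (a ^ i) f + 4 := by
  have s1 : ∀ i ∈ range m, Summable fun x => (f (a ^ i • x) - f x) ^ 2 := fun i _ => summ_dd _ hf
  have e1 : ∑' x, ∑ i ∈ range m, (f (a ^ i • x) - f x) ^ 2 = ∑ i ∈ range m, dd (a ^ i) f := by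
    rw [Summable.tsum_finsetSum s1]; rfl
  have s2 : Summable fun x => ∑ i ∈ range m, (f (a ^ i • x) - f x) ^ 2 := summable_sum s1
  have s3 : Summable fun x =>
      ∑ i ∈ range m, (f (a ^ i • a ^ n • x) - f (a ^ n • x)) ^ 2 :=
    s2.comp_injective (MulAction.injective (a ^ n))
  have e3 : ∑' x, ∑ i ∈ range m, (f (a ^ i • a ^ n • x) - f (a ^ n • x)) ^ 2 =
      ∑ i ∈ range m, dd (a ^ i) f := by
    rw [← e1]
    exact tsum_shift (a ^ n) fun x => ∑ i ∈ range m, (f (a ^ i • x) - f x) ^ 2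
  have s4 : Summable f := summable_fin hf
  have s5 : Summable fun x => f (a ^ n • x) := summable_fin (support_shift _ hf)
  have e5 : ∑' x, f (a ^ n • x) = ∑' x, f x := tsum_shift _ f
  have h1 : ∑' x, (m : ℝ) * (f (a ^ n • x) - f x) ^ 2 ≤
      ∑' x, (4 * ∑ i ∈ range m, (f (a ^ i • a ^ n • x) - f (a ^ n • x)) ^ 2 +
      4 * ∑ i ∈ range m, (f (a ^ i • x) - f x) ^ 2 + 2 * f (a ^ n • x) + 2 * f x) :=
    Summable.tsum_le_tsum (fun x => pointwise a hf h0 hs m x n) ((summ_dd _ hf).mul_left _)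
      ((((s3.mul_left 4).add (s2.mul_left 4)).add (s5.mul_left 2)).add (s4.mul_left 2))
  rw [Summable.tsum_add (((s3.mul_left 4).add (s2.mul_left 4)).add (s5.mul_left 2))
    (s4.mul_left 2), Summable.tsum_add ((s3.mul_left 4).add (s2.mul_left 4)) (s5.mul_left 2),
    Summable.tsum_add (s3.mul_left 4) (s2.mul_left 4), tsum_mul_left, tsum_mul_left, tsum_mul_left,
    tsum_mul_left, tsum_mul_left, e1, e3, e5] at h1
  have e6 : dd (a ^ n) f = ∑' x, (f (a ^ n • x) - f x) ^ 2 := rfl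
  rw [e6]
  linarith

end cyc

end Pool.Agent.TH175.CC.BG
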