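import Pool.Agent.TH175.CC.BG1

set_option autoImplicit false

namespace Pool.Agent.TH175.CC.BG

open Finset Function Pool.Agent.TH175.CC

variable {G X : Type} [Group G] [MulAction G X]

open scoped Pointwise in
/-- separation lemma -/
theorem separate [Infinite X] [MulAction.IsPretransitive G X] (F : Finset X) :
    ∃ g : G, ∀ x ∈ F, g • x ∉ F := by
  classical
  by_contra hcon
  push Not at hcon
  choose t ht using fun p : X × X => MulAction.exists_smul_eq G p.1 p.2
  have hcov : ⋃ i ∈ F ×ˢ F, t i • (MulAction.stabilizer G i.1 : Set G) = Set.univ := by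
    rw [Set.eq_univ_iff_forall]
    intro g
    obtain ⟨x, hx, hgx⟩ := hcon g
    simp only [Set.mem_iUnion]
    refine ⟨(x, g • x), Finset.mem_product.2 ⟨hx, hgx⟩, ?_⟩
    rw [mem_leftCoset_iff]
    show (t (x, g • x))⁻¹ * g ∈ MulAction.stabilizer G x
    rw [MulAction.mem_stabilizer_iff, mul_smul, inv_smul_eq_iff]
    exact (ht (x, g • x)).symm
  obtain ⟨k, _, hk⟩ := Subgroup.exists_finiteIndex_of_leftCoset_cover
    (H := fun i : X × X => MulAction.stabilizer G i.1) hcov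
  apply hk.index_ne_zero
  rw [MulAction.index_stabilizer_of_transitive]
  exact Nat.card_eq_zero_of_infinite

theorem exists_dd [Infinite X] [MulAction.IsPretransitive G X] {f : X → ℝ}
    (hf : (support f).Finite) : ∃ g : G, 2 * E f ≤ dd g f := by
  obtain ⟨g, hg⟩ := separate (G := G) hf.toFinset
  refine ⟨g, ?_⟩
  have s1 : Summable fun x => f (g • x) ^ 2 := summ_sq (support_shift g hf)
  have s2 : Summable fun x => f x ^ 2 := summ_sq hf
  have e1 : ∑' x, f (g • x) ^ 2 = E f := tsum_shift g fun x => f x ^ 2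
  have e2 : ∑' x, f x ^ 2 = E f := rfl
  have e3 : dd g f = ∑' x, (f (g • x) ^ 2 + f x ^ 2) := by
    unfold dd
    refine tsum_congr fun x => ?_
    by_cases hx : f x = 0
    · rw [hx]; ring
    · have h1 : x ∈ hf.toFinset := hf.mem_toFinset.2 hx
      have h2 := hg x h1
      have h3 : f (g • x) = 0 := by
        by_contra h3
        exact h2 (hf.mem_toFinset.2 h3)
      rw [h3]; ring
  rw [e3, Summable.tsum_add s1 s2, e1, e2]
  linarith

section Q

variable {ι : Type} [Fintype ι]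

/-- lazy averaging operator -/
noncomputable def Q (φ : ι → G) (f : X → ℝ) : X → ℝ :=
  fun x => (f x + (Fintype.card ι : ℝ)⁻¹ * ∑ s, f (φ s • x)) / 2

theorem support_Q (φ : ι → G) {f : X → ℝ} (hf : (support f).Finite) :
    (support (Q φ f)).Finite := by
  refine (hf.union (Set.finite_iUnion fun s => support_shift (φ s) hf)).subset ?_
  intro x hx
  by_contra hcon
  simp only [Set.mem_union, Set.mem_iUnion, mem_support, not_or, not_not, not_exists] at hcon
  apply hx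
  unfold Q
  rw [hcon.1, Finset.sum_eq_zero fun s _ => hcon.2 s]
  norm_num

theorem Q_nonneg (φ : ι → G) {f : X → ℝ} (h0 : ∀ x, 0 ≤ f x) (x : X) : 0 ≤ Q φ f x := by
  unfold Q
  have := h0 x
  have h2 : 0 ≤ ∑ s, f (φ s • x) := Finset.sum_nonneg fun s _ => h0 _
  positivity

theorem tsum_Q [Nonempty ι] (φ : ι → G) {f : X → ℝ} (hf : (support f).Finite) :
    ∑' x, Q φ f x = ∑' x, f x := by
  have hpos : (0 : ℝ) < Fintype.card ι := by exact_mod_cast Fintype.card_pos
  have hs : ∀ s ∈ (Finset.univ : Finset ι), Summable fun x => f (φ s • x) := fun s _ =>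
    summable_fin (support_shift (φ s) hf)
  unfold Q
  rw [tsum_div_const, Summable.tsum_add (summable_fin hf) ((summable_sum hs).mul_left _),
    tsum_mul_left, Summable.tsum_finsetSum hs,
    Finset.sum_congr rfl (fun s _ => tsum_shift (φ s) f), Finset.sum_const, nsmul_eq_mul,
    Finset.card_univ, ← mul_assoc, inv_mul_cancel₀ hpos.ne', one_mul]
  ring

theorem E_Q_le [Nonempty ι] (φ : ι → G) {f : X → ℝ} (hf : (support f).Finite) :
    E (Q φ f) ≤ E f - (4 * (Fintype.card ι : ℝ))⁻¹ * ∑ s, dd (φ s) f := by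
  have hpos : (0 : ℝ) < Fintype.card ι := by exact_mod_cast Fintype.card_pos
  have hs : ∀ s ∈ (Finset.univ : Finset ι), Summable fun x => f (φ s • x) ^ 2 := fun s _ =>
    summ_sq (support_shift (φ s) hf)
  have hd : ∀ s ∈ (Finset.univ : Finset ι), Summable fun x => (f (φ s • x) - f x) ^ 2 :=
    fun s _ => summ_dd (φ s) hf
  have s1 : Summable fun x => (f x ^ 2 + (Fintype.card ι : ℝ)⁻¹ * ∑ s, f (φ s • x) ^ 2) / 2 :=
    ((summ_sq hf).add ((summable_sum hs).mul_left _)).div_const 2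
  have s2 : Summable fun x =>
      (4 * (Fintype.card ι : ℝ))⁻¹ * ∑ s, (f (φ s • x) - f x) ^ 2 :=
    (summable_sum hd).mul_left _
  have e1 : E f = ∑' x, (f x ^ 2 + (Fintype.card ι : ℝ)⁻¹ * ∑ s, f (φ s • x) ^ 2) / 2 := by
    rw [tsum_div_const, Summable.tsum_add (summ_sq hf) ((summable_sum hs).mul_left _),
      tsum_mul_left, Summable.tsum_finsetSum hs,
      Finset.sum_congr rfl (fun s _ => tsum_shift (φ s) fun x => f x ^ 2), Finset.sum_const,
      nsmul_eq_mul, Finset.card_univ, ← mul_assoc, inv_mul_cancel₀ hpos.ne', one_mul]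
    unfold E
    ring
  have e2 : (4 * (Fintype.card ι : ℝ))⁻¹ * ∑ s, dd (φ s) f =
      ∑' x, (4 * (Fintype.card ι : ℝ))⁻¹ * ∑ s, (f (φ s • x) - f x) ^ 2 := by
    rw [tsum_mul_left, Summable.tsum_finsetSum hd]
    rfl
  rw [e2, e1, ← Summable.tsum_sub s1 s2]
  unfold E
  refine Summable.tsum_le_tsum (fun x => ?_) (summ_sq (support_Q φ hf)) (s1.sub s2)
  unfold Q
  have h1 : ∑ s, (f (φ s • x) - f x) ^ 2 =
      ∑ s, f (φ s • x) ^ 2 - 2 * f x * ∑ s, f (φ s • x) + Fintype.card ι * f x ^ 2 := by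
    have : ∀ s ∈ (Finset.univ : Finset ι), (f (φ s • x) - f x) ^ 2 =
        f (φ s • x) ^ 2 - 2 * f x * f (φ s • x) + f x ^ 2 := fun s _ => by ring
    rw [Finset.sum_congr rfl this, Finset.sum_add_distrib, Finset.sum_sub_distrib,
      ← Finset.mul_sum, Finset.sum_const, nsmul_eq_mul, Finset.card_univ]
  have h2 : (∑ s, f (φ s • x)) ^ 2 ≤ Fintype.card ι * ∑ s, f (φ s • x) ^ 2 := by
    have := sq_sum_le_card_mul_sum_sq (s := (Finset.univ : Finset ι)) (f := fun s => f (φ s • x))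
    simpa using this
  rw [h1]
  obtain ⟨N, hN⟩ : ∃ N : ℝ, N = Fintype.card ι := ⟨_, rfl⟩
  rw [← hN] at h2 hpos ⊢
  obtain ⟨V, hV⟩ : ∃ V, V = ∑ s, f (φ s • x) := ⟨_, rfl⟩
  obtain ⟨V2, hV2⟩ : ∃ V2, V2 = ∑ s, f (φ s • x) ^ 2 := ⟨_, rfl⟩
  rw [← hV, ← hV2] at h2 ⊢
  have h3 : (f x ^ 2 + N⁻¹ * V2) / 2 - (4 * N)⁻¹ * (V2 - 2 * f x * V + N * f x ^ 2) -
      ((f x + N⁻¹ * V) / 2) ^ 2 = (N * V2 - V ^ 2) / (4 * N ^ 2) := by
    field_simp
    ring
  have h4 : 0 ≤ (N * V2 - V ^ 2) / (4 * N ^ 2) := div_nonneg (by linarith) (by positivity)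
  linarith

theorem ip_Q (φ : ι → G) (hsym : ∀ F : G → ℝ, ∑ s, F (φ s) = ∑ s, F (φ s)⁻¹) {f : X → ℝ}
    (hf : (support f).Finite) (g : X → ℝ) : ∑' x, Q φ f x * g x = ∑' x, f x * Q φ g x := by
  have hs : ∀ s ∈ (Finset.univ : Finset ι), Summable fun x => f (φ s • x) * g x := fun s _ =>
    summable_fin (supp_sub (support_shift (φ s) hf) fun x h => by rw [h]; ring)
  have hs' : ∀ s ∈ (Finset.univ : Finset ι), Summable fun x => f x * g (φ s • x) := fun s _ =>
    summable_fin (supp_sub hf fun x h => by rw [h]; ring)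
  have h0 : Summable fun x => f x * g x :=
    summable_fin (supp_sub hf fun x h => by rw [h]; ring)
  have e1 : ∀ x, Q φ f x * g x =
      (f x * g x + (Fintype.card ι : ℝ)⁻¹ * ∑ s, f (φ s • x) * g x) / 2 := by
    intro x
    unfold Q
    rw [← Finset.sum_mul]
    ring
  have e2 : ∀ x, f x * Q φ g x =
      (f x * g x + (Fintype.card ι : ℝ)⁻¹ * ∑ s, f x * g (φ s • x)) / 2 := by
    intro x
    unfold Q
    rw [← Finset.mul_sum]
    ring
  simp only [e1, e2]
  rw [tsum_div_const, tsum_div_const, Summable.tsum_add h0 ((summable_sum hs).mul_left _),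
    Summable.tsum_add h0 ((summable_sum hs').mul_left _), tsum_mul_left, tsum_mul_left,
    Summable.tsum_finsetSum hs, Summable.tsum_finsetSum hs',
    hsym (fun γ => ∑' x, f x * g (γ • x))]
  have e3 : ∀ s ∈ (Finset.univ : Finset ι), ∑' x, f (φ s • x) * g x =
      ∑' x, f x * g ((φ s)⁻¹ • x) := by
    intro s _
    rw [← tsum_shift (φ s) (fun x => f x * g ((φ s)⁻¹ • x))]
    simp only [inv_smul_smul]
  rw [Finset.sum_congr rfl e3]

end Q

/-- the long jumps `a j ^ (± i)`, `i < m` -/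
def phi {k : ℕ} (a : Fin k → G) (m : ℕ) (s : Fin k × Bool × Fin m) : G :=
  if s.2.1 then a s.1 ^ (s.2.2 : ℕ) else (a s.1 ^ (s.2.2 : ℕ))⁻¹

theorem phi_sym {k : ℕ} (a : Fin k → G) (m : ℕ) (F : G → ℝ) :
    ∑ s, F (phi a m s) = ∑ s, F (phi a m s)⁻¹ := by
  simp only [Fintype.sum_prod_type, Fintype.sum_bool, phi, if_true, Bool.false_eq_true, if_false,
    inv_inv]
  exact Finset.sum_congr rfl fun j _ => add_comm _ _

theorem phi_sum {k : ℕ} (a : Fin k → G) (m : ℕ) (f : X → ℝ) :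
    ∑ j, ∑ i ∈ range m, dd (a j ^ i) f ≤ ∑ s, dd (phi a m s) f := by
  simp only [Fintype.sum_prod_type, Fintype.sum_bool, phi, if_true, Bool.false_eq_true, if_false]
  refine Finset.sum_le_sum fun j _ => ?_
  rw [Fin.sum_univ_eq_sum_range (fun i => dd (a j ^ i) f) m]
  have : 0 ≤ ∑ i : Fin m, dd ((a j ^ (i : ℕ))⁻¹) f := Finset.sum_nonneg fun i _ => dd_nonneg _ _
  linarith

/-- the threshold -/
noncomputable def T (k : ℕ) : ℝ := 4 * 2 ^ k * k

/-- **The decrement**: as long as `f` is spread on fewer than `m / T` points, one step with jumps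
of length `< m` decreases the energy by a definite proportion. -/
theorem decr [Infinite X] [MulAction.IsPretransitive G X] {k : ℕ} (hk : 0 < k) (a : Fin k → G)
    (hBG : ∀ g : G, ∃ e : Fin k → ℤ, g = (List.ofFn fun j => a j ^ e j).prod) {m : ℕ}
    (hm : 0 < m) {f : X → ℝ} (hf : (support f).Finite) (h0 : ∀ x, 0 ≤ f x)
    (hs : ∑' x, f x ≤ 1) (hE : T k ≤ m * E f) :
    E (Q (phi a m) f) ≤ (1 - 1 / (16 * T k)) * E f := by
  haveI : Nonempty (Fin k) := ⟨⟨0, hk⟩⟩
  haveI : Nonempty (Fin m) := ⟨⟨0, hm⟩⟩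
  obtain ⟨w, hw⟩ := exists_dd (G := G) hf
  obtain ⟨e, he⟩ := hBG w
  have h1 := dd_list hf (List.ofFn fun j => a j ^ e j)
  rw [← he, List.length_ofFn, List.map_ofFn, List.sum_ofFn] at h1
  simp only [Function.comp_apply] at h1
  obtain ⟨D', hD'⟩ : ∃ D', D' = ∑ j, ∑ i ∈ range m, dd (a j ^ i) f := ⟨_, rfl⟩
  have h2 : (m : ℝ) * ∑ j, dd (a j ^ e j) f ≤ 8 * D' + 4 * k := by
    rw [Finset.mul_sum, hD', Finset.mul_sum]
    calc ∑ j, (m : ℝ) * dd (a j ^ e j) f ≤ ∑ j : Fin k, (8 * ∑ i ∈ range m, dd (a j ^ i) f + 4) :=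
          Finset.sum_le_sum fun j _ => dd_zpow (a j) hf h0 hs m (e j)
      _ = _ := by
        rw [Finset.sum_add_distrib, Finset.sum_const, nsmul_eq_mul, Finset.card_univ,
          Fintype.card_fin]
        ring
  have hm' : (0 : ℝ) < m := by exact_mod_cast hm
  have hk' : (0 : ℝ) < k := by exact_mod_cast hk
  have hB : (0 : ℝ) < 2 ^ k := by positivity
  have h3 : m * (2 * E f) ≤ 2 ^ k * (8 * D' + 4 * k) := by
    calc m * (2 * E f) ≤ m * (2 ^ k * ∑ j, dd (a j ^ e j) f) :=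
          mul_le_mul_of_nonneg_left (hw.trans h1) hm'.le
      _ = 2 ^ k * (m * ∑ j, dd (a j ^ e j) f) := by ring
      _ ≤ _ := mul_le_mul_of_nonneg_left h2 hB.le
  have h4 : m * E f ≤ 8 * 2 ^ k * D' := by
    unfold T at hE
    nlinarith
  have h5 := E_Q_le (phi a m) hf
  have h6 := phi_sum a m f
  rw [← hD'] at h6
  have hc : (Fintype.card (Fin k × Bool × Fin m) : ℝ) = 2 * k * m := by
    rw [Fintype.card_prod, Fintype.card_prod, Fintype.card_fin, Fintype.card_fin,
      Fintype.card_bool]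
    push_cast
    ring
  rw [hc] at h5
  have h7 : (4 * (2 * (k : ℝ) * m))⁻¹ * D' ≤
      (4 * (2 * (k : ℝ) * m))⁻¹ * ∑ s, dd (phi a m s) f :=
    mul_le_mul_of_nonneg_left h6 (by positivity)
  have h8 : 1 / (16 * T k) * E f ≤ (4 * (2 * (k : ℝ) * m))⁻¹ * D' := by
    unfold T
    rw [one_div, inv_mul_le_iff₀ (by positivity)]
    have : 16 * (4 * 2 ^ k * (k : ℝ)) * ((4 * (2 * (k : ℝ) * m))⁻¹ * D') =
        (8 * 2 ^ k * D') / m := by
      field_simp
      ring
    rw [this, le_div_iff₀ hm']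
    linarith
  linarith

end Pool.Agent.TH175.CC.BG
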