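import Pool.Agent.TH175.CC.BG2

set_option autoImplicit false

namespace Pool.Agent.TH175.CC.BG

open Finset Function Pool.Agent.TH175.CC

variable {G X : Type} [Group G] [MulAction G X]

/-- the composition of the steps with jumps `< 2 ^ e`, `e ∈ es`; the last one acts first -/
noncomputable def V {k : ℕ} (a : Fin k → G) (es : List ℕ) (f : X → ℝ) : X → ℝ :=
  es.foldr (fun e g => Q (phi a (2 ^ e)) g) f

theorem V_nil {k : ℕ} (a : Fin k → G) (f : X → ℝ) : V a [] f = f := rfl

theorem V_cons {k : ℕ} (a : Fin k → G) (e : ℕ) (es : List ℕ) (f : X → ℝ) :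
    V a (e :: es) f = Q (phi a (2 ^ e)) (V a es f) := rfl

theorem V_append {k : ℕ} (a : Fin k → G) (es es' : List ℕ) (f : X → ℝ) :
    V a (es ++ es') f = V a es (V a es' f) := List.foldr_append

/-- good functions -/
def Good (f : X → ℝ) : Prop := (support f).Finite ∧ (∀ x, 0 ≤ f x) ∧ ∑' x, f x ≤ 1

theorem good_Q {k : ℕ} (hk : 0 < k) (a : Fin k → G) (e : ℕ) {f : X → ℝ} (hf : Good f) :
    Good (Q (phi a (2 ^ e)) f) := by
  haveI : Nonempty (Fin k) := ⟨⟨0, hk⟩⟩
  haveI : Nonempty (Fin (2 ^ e)) := ⟨⟨0, by positivity⟩⟩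
  exact ⟨support_Q _ hf.1, Q_nonneg _ hf.2.1, by rw [tsum_Q _ hf.1]; exact hf.2.2⟩

theorem good_V {k : ℕ} (hk : 0 < k) (a : Fin k → G) (es : List ℕ) {f : X → ℝ} (hf : Good f) :
    Good (V a es f) := by
  induction es with
  | nil => exact hf
  | cons e es ih => exact good_Q hk a e ih

theorem good_dl (y : X) : Good (dl y) := ⟨supp_dl y, dl_nonneg y, (tsum_dl y).le⟩

theorem E_Q_mono {k : ℕ} (hk : 0 < k) (a : Fin k → G) (e : ℕ) {f : X → ℝ} (hf : Good f) :
    E (Q (phi a (2 ^ e)) f) ≤ E f := by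
  haveI : Nonempty (Fin k) := ⟨⟨0, hk⟩⟩
  haveI : Nonempty (Fin (2 ^ e)) := ⟨⟨0, by positivity⟩⟩
  have h := E_Q_le (phi a (2 ^ e)) hf.1
  have h2 : 0 ≤ (4 * (Fintype.card (Fin k × Bool × Fin (2 ^ e)) : ℝ))⁻¹ *
      ∑ s, dd (phi a (2 ^ e) s) f :=
    mul_nonneg (by positivity) (Finset.sum_nonneg fun s _ => dd_nonneg _ _)
  linarith

theorem T_pos {k : ℕ} (hk : 0 < k) : 4 ≤ T k := by
  unfold T
  have h1 : (1 : ℝ) ≤ 2 ^ k := one_le_pow₀ (by norm_num)
  have h2 : (1 : ℝ) ≤ k := by exact_mod_cast hk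
  nlinarith

theorem E_rep [Infinite X] [MulAction.IsPretransitive G X] {k : ℕ} (hk : 0 < k) (a : Fin k → G)
    (hBG : ∀ g : G, ∃ e : Fin k → ℤ, g = (List.ofFn fun j => a j ^ e j).prod) (s : ℕ)
    {f : X → ℝ} (hf : Good f) (B : ℝ) (hB : T k / 2 ^ s = B / 2) (hE : E f ≤ B) (K : ℕ) :
    E (V a (List.replicate K s) f) ≤ max (B / 2) ((1 - 1 / (16 * T k)) ^ K * B) := by
  have hT := T_pos hk
  have hq0 : 0 ≤ 1 - 1 / (16 * T k) := by
    rw [sub_nonneg, div_le_one (by linarith)]
    linarith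
  induction K with
  | zero =>
    simp only [List.replicate_zero, V_nil, pow_zero, one_mul]
    exact hE.trans (le_max_right _ _)
  | succ K ih =>
    rw [List.replicate_succ, V_cons]
    have hg := good_V hk a (List.replicate K s) hf
    rcases le_total (E (V a (List.replicate K s) f)) (B / 2) with h | h
    · exact ((E_Q_mono hk a s hg).trans h).trans (le_max_left _ _)
    · have h2 : T k ≤ ((2 ^ s : ℕ) : ℝ) * E (V a (List.replicate K s) f) := by
        push_cast
        rw [← div_le_iff₀' (by positivity), hB]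
        exact h
      have h3 := decr hk a hBG (m := 2 ^ s) (by positivity) hg.1 hg.2.1 hg.2.2 h2
      rcases le_max_iff.1 ih with h4 | h4
      · exact ((E_Q_mono hk a s hg).trans h4).trans (le_max_left _ _)
      · refine (h3.trans (mul_le_mul_of_nonneg_left h4 hq0)).trans (le_trans (le_of_eq ?_)
          (le_max_right _ _))
        rw [pow_succ]; ring

/-- the schedule -/
def scl (K : ℕ) : ℕ → List ℕ
  | 0 => []
  | s + 1 => List.replicate K (s + 1) ++ scl K s

theorem scl_sum (K s : ℕ) : ((scl K s).map fun e => 2 ^ e).sum ≤ K * 2 ^ (s + 1) := by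
  induction s with
  | zero => simp [scl]
  | succ s ih =>
    rw [scl, List.map_append, List.sum_append, List.map_replicate, List.sum_replicate,
      smul_eq_mul]
    have : K * 2 ^ (s + 1 + 1) = K * 2 ^ (s + 1) + K * 2 ^ (s + 1) := by rw [pow_succ]; ring
    omega

theorem E_scl [Infinite X] [MulAction.IsPretransitive G X] {k : ℕ} (hk : 0 < k) (a : Fin k → G)
    (hBG : ∀ g : G, ∃ e : Fin k → ℤ, g = (List.ofFn fun j => a j ^ e j).prod) {K : ℕ}
    (hK : (1 - 1 / (16 * T k)) ^ K ≤ 1 / 2) (s : ℕ) (y : X) :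
    E (V a (scl K s) (dl y)) ≤ T k / 2 ^ s := by
  have hT := T_pos hk
  induction s with
  | zero =>
    simp only [scl, V_nil, pow_zero, div_one]
    rw [E_dl]; linarith
  | succ s ih =>
    rw [scl, V_append]
    have h := E_rep hk a hBG (s + 1) (good_V hk a (scl K s) (good_dl y)) (T k / 2 ^ s)
      (by rw [pow_succ]; field_simp) ih K
    refine h.trans (max_le ?_ ?_)
    · refine le_of_eq ?_
      rw [pow_succ]; field_simp
    · have h2 : (1 - 1 / (16 * T k)) ^ K * (T k / 2 ^ s) ≤ 1 / 2 * (T k / 2 ^ s) :=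
        mul_le_mul_of_nonneg_right hK (by positivity)
      refine h2.trans (le_of_eq ?_)
      rw [pow_succ]; field_simp

theorem ip_V {k : ℕ} (hk : 0 < k) (a : Fin k → G) (es : List ℕ) {f : X → ℝ} (hf : Good f) :
    ∀ g : X → ℝ, ∑' x, V a es f x * g x = ∑' x, f x * V a es.reverse g x := by
  induction es with
  | nil => intro g; rfl
  | cons e es ih =>
    intro g
    rw [V_cons, ip_Q _ (phi_sym a _) (good_V hk a es hf).1, ih, List.reverse_cons, V_append,
      V_cons, V_nil]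

/-- the kernel -/
theorem kernel [Infinite X] [MulAction.IsPretransitive G X] {k : ℕ} (hk : 0 < k) (a : Fin k → G)
    (hBG : ∀ g : G, ∃ e : Fin k → ℤ, g = (List.ofFn fun j => a j ^ e j).prod) {K : ℕ}
    (hK : (1 - 1 / (16 * T k)) ^ K ≤ 1 / 2) (s : ℕ) (x y : X) :
    V a ((scl K s).reverse ++ scl K s) (dl y) x ≤ T k / 2 ^ s := by
  have gy := good_V hk a (scl K s) (good_dl y)
  have gx := good_V hk a (scl K s) (good_dl x)
  have e1 : V a ((scl K s).reverse ++ scl K s) (dl y) x =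
      ∑' z, V a (scl K s) (dl y) z * V a (scl K s) (dl x) z := by
    have h1 := ip_V hk a (scl K s).reverse gy (dl x)
    rw [List.reverse_reverse] at h1
    rw [← h1, V_append, tsum_eq_single x]
    · rw [dl_self, mul_one]
    · intro z hz
      unfold dl
      rw [if_neg hz, mul_zero]
  rw [e1]
  have b1 := E_scl hk a hBG hK s y
  have b2 := E_scl hk a hBG hK s x
  have s1 : Summable fun z => V a (scl K s) (dl y) z * V a (scl K s) (dl x) z :=
    summable_fin (supp_sub gy.1 fun z h => by rw [h]; ring)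
  have s2 : Summable fun z => (V a (scl K s) (dl y) z ^ 2 + V a (scl K s) (dl x) z ^ 2) / 2 :=
    ((summ_sq gy.1).add (summ_sq gx.1)).div_const 2
  have h3 : ∑' z, V a (scl K s) (dl y) z * V a (scl K s) (dl x) z ≤
      ∑' z, (V a (scl K s) (dl y) z ^ 2 + V a (scl K s) (dl x) z ^ 2) / 2 := by
    refine Summable.tsum_le_tsum (fun z => ?_) s1 s2
    nlinarith [sq_nonneg (V a (scl K s) (dl y) z - V a (scl K s) (dl x) z)]
  rw [tsum_div_const, Summable.tsum_add (summ_sq gy.1) (summ_sq gx.1)] at h3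
  unfold E at b1 b2
  linarith

/-- word length at most `L` -/
def Len (S : Finset G) (L : ℕ) (w : G) : Prop :=
  ∃ l : List G, l.length ≤ L ∧ (∀ x ∈ l, x ∈ S ∨ x⁻¹ ∈ S) ∧ l.prod = w

theorem Len.mul {S : Finset G} {L M : ℕ} {v w : G} (hv : Len S L v) (hw : Len S M w) :
    Len S (L + M) (v * w) := by
  obtain ⟨l, h1, h2, h3⟩ := hv
  obtain ⟨l', k1, k2, k3⟩ := hw
  refine ⟨l ++ l', by rw [List.length_append]; omega, ?_, by rw [List.prod_append, h3, k3]⟩
  intro x hx
  rcases List.mem_append.1 hx with hx | hx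
  · exact h2 x hx
  · exact k2 x hx

theorem Len.mono {S : Finset G} {L M : ℕ} (h : L ≤ M) {v : G} (hv : Len S L v) : Len S M v := by
  obtain ⟨l, h1, h2, h3⟩ := hv
  exact ⟨l, h1.trans h, h2, h3⟩

theorem Len.one (S : Finset G) (L : ℕ) : Len S L (1 : G) := ⟨[], by simp, by simp, rfl⟩

theorem Len.inv {S : Finset G} {L : ℕ} {v : G} (hv : Len S L v) : Len S L v⁻¹ := by
  obtain ⟨l, h1, h2, h3⟩ := hv
  refine ⟨(l.map fun x => x⁻¹).reverse, by simpa using h1, ?_, ?_⟩
  · intro x hx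
    rw [List.mem_reverse, List.mem_map] at hx
    obtain ⟨y, hy, rfl⟩ := hx
    rcases h2 y hy with h | h
    · exact Or.inr (by rwa [inv_inv])
    · exact Or.inl h
  · rw [← List.prod_inv_reverse, h3]

theorem Len.pow {S : Finset G} {L : ℕ} {v : G} (hv : Len S L v) (i : ℕ) :
    Len S (i * L) (v ^ i) := by
  induction i with
  | zero => rw [pow_zero]; exact Len.one S _
  | succ i ih =>
    rw [pow_succ]
    exact (ih.mul hv).mono (by rw [Nat.succ_mul])

theorem exists_len {S : Finset G} (hS : Subgroup.closure (S : Set G) = ⊤) (v : G) :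
    ∃ L, Len S L v := by
  have hv : v ∈ Subgroup.closure (S : Set G) := by rw [hS]; trivial
  induction hv using Subgroup.closure_induction with
  | mem s hs => exact ⟨1, [s], by simp, by
      intro x hx
      rw [List.mem_singleton.1 hx]
      exact Or.inl hs, by simp⟩
  | one => exact ⟨0, Len.one S 0⟩
  | mul a b _ _ ha hb =>
    obtain ⟨L, hL⟩ := ha
    obtain ⟨M, hM⟩ := hb
    exact ⟨L + M, hL.mul hM⟩
  | inv a _ ha =>
    obtain ⟨L, hL⟩ := ha
    exact ⟨L, hL.inv⟩

theorem len_phi {S : Finset G} {k : ℕ} {a : Fin k → G} {M : ℕ} (hM : ∀ j, Len S M (a j)) (m : ℕ)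
    (s : Fin k × Bool × Fin m) : Len S (M * m) (phi a m s) := by
  have h : Len S (M * m) (a s.1 ^ (s.2.2 : ℕ)) := ((hM s.1).pow _).mono (by
    have := s.2.2.is_lt
    rw [mul_comm]
    exact Nat.mul_le_mul_left M this.le)
  unfold phi
  split_ifs
  · exact h
  · exact h.inv

theorem cover2 {S : Finset G} {k : ℕ} (hk : 0 < k) {a : Fin k → G} {M : ℕ}
    (hM : ∀ j, Len S M (a j)) {n : ℕ} {Y : Fin n → Type}
    [∀ i, MulAction G (Y i)] (x y : ∀ i, Y i) (es : List ℕ) : ∀ u : G,
    (∀ w, Len S (M * (es.map fun e => 2 ^ e).sum) w → ∃ i, (w * u) • x i = y i) →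
    1 ≤ ∑ i, V a es (dl (y i)) (u • x i) := by
  haveI : Nonempty (Fin k) := ⟨⟨0, hk⟩⟩
  induction es with
  | nil =>
    intro u h
    obtain ⟨i, hi⟩ := h 1 (Len.one S _)
    rw [one_mul] at hi
    calc (1 : ℝ) = V a [] (dl (y i)) (u • x i) := by rw [V_nil, hi, dl_self]
      _ ≤ _ := Finset.single_le_sum (f := fun i => V a [] (dl (y i)) (u • x i))
        (fun j _ => dl_nonneg _ _) (Finset.mem_univ i)
  | cons e es ih =>
    intro u h
    haveI : Nonempty (Fin (2 ^ e)) := ⟨⟨0, by positivity⟩⟩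
    rw [List.map_cons, List.sum_cons] at h
    have h1 : (1 : ℝ) ≤ ∑ i, V a es (dl (y i)) (u • x i) := ih u fun w hw =>
      h w (hw.mono (Nat.mul_le_mul_left M (Nat.le_add_left _ _)))
    have h2 : ∀ s ∈ (Finset.univ : Finset (Fin k × Bool × Fin (2 ^ e))),
        (1 : ℝ) ≤ ∑ i, V a es (dl (y i)) (phi a (2 ^ e) s • u • x i) := by
      intro s _
      have := ih (phi a (2 ^ e) s * u) fun w hw => by
        obtain ⟨i, hi⟩ := h (w * phi a (2 ^ e) s)
          ((hw.mul (len_phi hM (2 ^ e) s)).mono (by rw [mul_add, add_comm]))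
        exact ⟨i, by rw [← mul_assoc]; exact hi⟩
      simpa only [mul_smul] using this
    have h3 := Finset.sum_le_sum h2
    rw [Finset.sum_const, nsmul_eq_mul, mul_one, Finset.sum_comm, Finset.card_univ] at h3
    have hpos : (0 : ℝ) < Fintype.card (Fin k × Bool × Fin (2 ^ e)) := by
      exact_mod_cast Fintype.card_pos
    have h4 : ∑ i, V a (e :: es) (dl (y i)) (u • x i) =
        (∑ i, V a es (dl (y i)) (u • x i) +
          (Fintype.card (Fin k × Bool × Fin (2 ^ e)) : ℝ)⁻¹ *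
          ∑ i, ∑ s, V a es (dl (y i)) (phi a (2 ^ e) s • u • x i)) / 2 := by
      rw [Finset.mul_sum, ← Finset.sum_add_distrib, Finset.sum_div]
      exact Finset.sum_congr rfl fun i _ => rfl
    rw [h4]
    have h5 : (1 : ℝ) ≤ (Fintype.card (Fin k × Bool × Fin (2 ^ e)) : ℝ)⁻¹ *
        ∑ i, ∑ s, V a es (dl (y i)) (phi a (2 ^ e) s • u • x i) := by
      calc (1 : ℝ) = (Fintype.card (Fin k × Bool × Fin (2 ^ e)) : ℝ)⁻¹ *
            Fintype.card (Fin k × Bool × Fin (2 ^ e)) := (inv_mul_cancel₀ hpos.ne').symm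
        _ ≤ _ := mul_le_mul_of_nonneg_left h3 (by positivity)
    linarith

end Pool.Agent.TH175.CC.BG
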