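import Pool.Agent.TH175.CC.Key

set_option autoImplicit false

namespace Pool.Agent.TH175.CC

open Finset Function

variable {G X : Type} [Group G] [MulAction G X]

/-- the iterates of the walk -/
noncomputable def W (A : Finset G) (f : X → ℝ) (t : ℕ) : X → ℝ := (P A)^[t] f

theorem W_zero (A : Finset G) (f : X → ℝ) : W A f 0 = f := rfl

theorem W_succ (A : Finset G) (f : X → ℝ) (t : ℕ) : W A f (t + 1) = P A (W A f t) :=
  Function.iterate_succ_apply' _ _ _

theorem W_succ' (A : Finset G) (f : X → ℝ) (t : ℕ) : W A f (t + 1) = W A (P A f) t :=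
  Function.iterate_succ_apply _ _ _

theorem W_add (A : Finset G) (f : X → ℝ) (s t : ℕ) : W A f (s + t) = W A (W A f t) s :=
  Function.iterate_add_apply _ _ _ _

theorem P_nonneg (A : Finset G) {f : X → ℝ} (h0 : ∀ x, 0 ≤ f x) (x : X) : 0 ≤ P A f x := by
  unfold P
  exact mul_nonneg (by positivity) (Finset.sum_nonneg fun s _ => h0 _)

theorem tsum_P (A : Finset G) (hA : A.Nonempty) {f : X → ℝ} (hf : (support f).Finite) :
    ∑' x, P A f x = ∑' x, f x := by
  have hpos : (0 : ℝ) < A.card := by exact_mod_cast Finset.card_pos.2 hA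
  have hs : ∀ s ∈ A, Summable fun x => f (s • x) := fun s _ =>
    summable_fin (support_shift s hf)
  unfold P
  rw [tsum_mul_left, Summable.tsum_finsetSum hs,
    Finset.sum_congr rfl (fun s _ => tsum_shift s f), Finset.sum_const, nsmul_eq_mul, ← mul_assoc,
    inv_mul_cancel₀ hpos.ne', one_mul]

open Classical in
/-- the point mass -/
noncomputable def dl (y : X) : X → ℝ := fun x => if x = y then 1 else 0

theorem dl_nonneg (y x : X) : 0 ≤ dl y x := by
  unfold dl; split_ifs <;> norm_num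

theorem dl_self (y : X) : dl y y = 1 := by
  unfold dl; simp

theorem supp_dl (y : X) : (support (dl y)).Finite := by
  refine (Set.finite_singleton y).subset fun x hx => ?_
  by_contra hne
  apply hx
  unfold dl
  rw [if_neg]
  exact hne

theorem tsum_dl (y : X) : ∑' x, dl y x = 1 := by
  have h : ∀ z, z ≠ y → dl y z = 0 := fun z hz => by
    unfold dl
    rw [if_neg hz]
  rw [tsum_eq_single y h]
  exact dl_self y

theorem E_dl (y : X) : E (dl y) = 1 := by
  have : (fun x => dl y x ^ 2) = dl y := by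
    funext x
    unfold dl
    split_ifs <;> norm_num
  unfold E
  rw [this, tsum_dl]

theorem W_good (A : Finset G) (hA : A.Nonempty) (y : X) (t : ℕ) :
    (support (W A (dl y) t)).Finite ∧ (∀ x, 0 ≤ W A (dl y) t x) ∧ ∑' x, W A (dl y) t x = 1 := by
  induction t with
  | zero => exact ⟨supp_dl y, dl_nonneg y, tsum_dl y⟩
  | succ t ih =>
    obtain ⟨h1, h2, h3⟩ := ih
    rw [W_succ]
    exact ⟨support_P A h1, P_nonneg A h2, by rw [tsum_P A hA h1, h3]⟩

theorem rec_step {c e e' a : ℝ} (hc : 0 ≤ c) (hc1 : c ≤ 1) (he' : 0 ≤ e')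
    (ha : 1 ≤ a) (h1 : a * e ^ 2 ≤ 1) (h2 : e' ≤ e - c * e ^ 3) :
    (a + 2 * c) * e' ^ 2 ≤ 1 := by
  have he1 : e ^ 2 ≤ 1 := by nlinarith [sq_nonneg e]
  have hu0 : 0 ≤ c * e ^ 2 := by positivity
  have hu1 : c * e ^ 2 ≤ 1 := by nlinarith
  obtain ⟨u, hu⟩ : ∃ u, u = c * e ^ 2 := ⟨_, rfl⟩
  have h3 : e' ≤ e * (1 - u) := by rw [hu]; linarith [h2, (by ring : e * (1 - c * e ^ 2) = e - c * e ^ 3)]
  have h4 : e' ^ 2 ≤ (e * (1 - u)) ^ 2 := pow_le_pow_left₀ he' h3 2
  have h5 : (a + 2 * c) * e' ^ 2 ≤ (a + 2 * c) * (e * (1 - u)) ^ 2 :=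
    mul_le_mul_of_nonneg_left h4 (by linarith)
  have h6 : (a + 2 * c) * (e * (1 - u)) ^ 2 = (a * e ^ 2 + 2 * u) * (1 - u) ^ 2 := by
    rw [hu]; ring
  have h7 : (a * e ^ 2 + 2 * u) * (1 - u) ^ 2 ≤ (1 + 2 * u) * (1 - u) ^ 2 :=
    mul_le_mul_of_nonneg_right (by linarith) (sq_nonneg _)
  have h8 : (1 + 2 * u) * (1 - u) ^ 2 = 1 - u ^ 2 * (3 - 2 * u) := by ring
  have h9 : 0 ≤ u ^ 2 * (3 - 2 * u) := mul_nonneg (sq_nonneg _) (by rw [hu]; linarith)
  linarith

theorem E_bound (A : Finset G) (h1 : (1 : G) ∈ A) (hA : Subgroup.closure (A : Set G) = ⊤)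
    [Infinite X] [MulAction.IsPretransitive G X] (hinv : ∀ s ∈ A, s⁻¹ ∈ A) (y : X) (t : ℕ) :
    (1 + 2 * (1 / (8 * (A.card : ℝ) ^ 3)) * t) * E (W A (dl y) t) ^ 2 ≤ 1 := by
  have hpos' : 1 ≤ A.card := Finset.card_pos.2 ⟨1, h1⟩
  have hpos : (1 : ℝ) ≤ A.card := by exact_mod_cast hpos'
  induction t with
  | zero =>
    rw [W_zero, E_dl]; norm_num
  | succ t ih =>
    obtain ⟨g1, g2, g3⟩ := W_good A ⟨1, h1⟩ y t
    have k1 := key A h1 hA hinv g1 g2 g3.le
    have k2 := E_P_le A h1 g1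
    rw [← W_succ] at k2
    have hc : (0 : ℝ) ≤ 1 / (8 * (A.card : ℝ) ^ 3) := by positivity
    have hc1 : 1 / (8 * (A.card : ℝ) ^ 3) ≤ 1 := by
      rw [div_le_one (by positivity)]
      nlinarith [one_le_pow₀ (n := 3) hpos]
    have k3 : E (W A (dl y) (t + 1)) ≤ E (W A (dl y) t) -
        1 / (8 * (A.card : ℝ) ^ 3) * E (W A (dl y) t) ^ 3 := by
      have k4 : 1 / (8 * (A.card : ℝ) ^ 3) * E (W A (dl y) t) ^ 3 =
          ((A.card : ℝ) ^ 2)⁻¹ * (E (W A (dl y) t) ^ 3 / (8 * A.card)) := by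
        field_simp
      rw [k4]
      have := mul_le_mul_of_nonneg_left k1 (by positivity : (0 : ℝ) ≤ ((A.card : ℝ) ^ 2)⁻¹)
      linarith
    have := rec_step (e := E (W A (dl y) t)) (e' := E (W A (dl y) (t + 1))) hc hc1
      (tsum_nonneg fun x => sq_nonneg _)
      (a := 1 + 2 * (1 / (8 * (A.card : ℝ) ^ 3)) * t) (by
        have : 0 ≤ 2 * (1 / (8 * (A.card : ℝ) ^ 3)) * t := by positivity
        linarith) ih k3
    refine le_trans (le_of_eq ?_) this
    push_cast
    ring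

/-- self-adjointness -/
theorem ip_P (A : Finset G) (hinv : ∀ s ∈ A, s⁻¹ ∈ A) {f : X → ℝ} (hf : (support f).Finite)
    (g : X → ℝ) : ∑' x, P A f x * g x = ∑' x, f x * P A g x := by
  classical
  have hs : ∀ s ∈ A, Summable fun x => f (s • x) * g x := fun s _ =>
    summable_fin (supp_sub (support_shift s hf) fun x h => by rw [h]; ring)
  have hs' : ∀ s ∈ A, Summable fun x => f x * g (s • x) := fun s _ =>
    summable_fin (supp_sub hf fun x h => by rw [h]; ring)
  have e1 : ∀ x, P A f x * g x = (A.card : ℝ)⁻¹ * ∑ s ∈ A, f (s • x) * g x := by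
    intro x
    unfold P
    rw [mul_assoc, Finset.sum_mul]
  have e2 : ∀ x, f x * P A g x = (A.card : ℝ)⁻¹ * ∑ s ∈ A, f x * g (s • x) := by
    intro x
    unfold P
    rw [mul_left_comm, Finset.mul_sum]
  simp only [e1, e2]
  rw [tsum_mul_left, tsum_mul_left, Summable.tsum_finsetSum hs, Summable.tsum_finsetSum hs']
  congr 1
  refine Finset.sum_nbij' (fun s => s⁻¹) (fun s => s⁻¹) (fun s h => hinv s h) (fun s h => hinv s h)
    (fun s _ => inv_inv s) (fun s _ => inv_inv s) fun s _ => ?_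
  rw [← tsum_shift s (fun x => f x * g (s⁻¹ • x))]
  simp only [inv_smul_smul]

theorem ip_W (A : Finset G) (hinv : ∀ s ∈ A, s⁻¹ ∈ A) {f : X → ℝ} (hf : (support f).Finite)
    (t : ℕ) : ∀ g : X → ℝ, ∑' x, W A f t x * g x = ∑' x, f x * W A g t x := by
  induction t generalizing f with
  | zero => intro g; rfl
  | succ t ih =>
    intro g
    rw [W_succ', ih (support_P A hf) g, ip_P A hinv hf, ← W_succ]

theorem heat (A : Finset G) (h1 : (1 : G) ∈ A) (hA : Subgroup.closure (A : Set G) = ⊤)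
    (hinv : ∀ s ∈ A, s⁻¹ ∈ A) [Infinite X] [MulAction.IsPretransitive G X] (x y : X) (t : ℕ) :
    (1 + 2 * (1 / (8 * (A.card : ℝ) ^ 3)) * t) * W A (dl y) (t + t) x ^ 2 ≤ 1 := by
  obtain ⟨g1, g2, g3⟩ := W_good A ⟨1, h1⟩ y t
  obtain ⟨k1, k2, k3⟩ := W_good A ⟨1, h1⟩ x t
  have e1 : W A (dl y) (t + t) x = ∑' z, W A (dl y) t z * W A (dl x) t z := by
    rw [W_add, ← ip_W A hinv g1 t (dl x)]
    symm
    rw [tsum_eq_single x]
    · rw [dl_self, mul_one]
    · intro z hz
      unfold dl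
      rw [if_neg hz, mul_zero]
  have hE1 : 0 ≤ E (W A (dl y) t) := tsum_nonneg fun _ => sq_nonneg _
  have hE2 : 0 ≤ E (W A (dl x) t) := tsum_nonneg fun _ => sq_nonneg _
  have e2 : ∑' z, W A (dl y) t z * W A (dl x) t z ≤
      (E (W A (dl y) t) + E (W A (dl x) t)) / 2 := by
    have s1 : Summable fun z => W A (dl y) t z * W A (dl x) t z :=
      summable_fin (supp_sub g1 fun z h => by rw [h]; ring)
    have s2 : Summable fun z => (W A (dl y) t z ^ 2 + W A (dl x) t z ^ 2) / 2 :=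
      ((summ_sq g1).add (summ_sq k1)).div_const 2
    have : (E (W A (dl y) t) + E (W A (dl x) t)) / 2 =
        ∑' z, (W A (dl y) t z ^ 2 + W A (dl x) t z ^ 2) / 2 := by
      unfold E
      rw [tsum_div_const, Summable.tsum_add (summ_sq g1) (summ_sq k1)]
    rw [this]
    refine Summable.tsum_le_tsum (fun z => ?_) s1 s2
    nlinarith [sq_nonneg (W A (dl y) t z - W A (dl x) t z)]
  have e3 : 0 ≤ W A (dl y) (t + t) x := (W_good A ⟨1, h1⟩ y (t + t)).2.1 x
  have b1 := E_bound A h1 hA hinv y t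
  have b2 := E_bound A h1 hA hinv x t
  have hc : (0 : ℝ) ≤ 1 + 2 * (1 / (8 * (A.card : ℝ) ^ 3)) * t := by positivity
  rw [← e1] at e2
  rcases le_total (E (W A (dl y) t)) (E (W A (dl x) t)) with h | h
  · have : W A (dl y) (t + t) x ≤ E (W A (dl x) t) := by linarith
    exact (mul_le_mul_of_nonneg_left (pow_le_pow_left₀ e3 this 2) hc).trans b2
  · have : W A (dl y) (t + t) x ≤ E (W A (dl y) t) := by linarith
    exact (mul_le_mul_of_nonneg_left (pow_le_pow_left₀ e3 this 2) hc).trans b1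

/-- the covering gives a lower bound for the sum of the heat kernels -/
theorem cover (A : Finset G) (hA : A.Nonempty) {n : ℕ} {Y : Fin n → Type}
    [∀ i, MulAction G (Y i)] (x y : ∀ i, Y i) (t : ℕ) : ∀ u : G,
    (∀ l : List G, l.length = t → (∀ s ∈ l, s ∈ A) → ∃ i, (l.prod * u) • x i = y i) →
    1 ≤ ∑ i, W A (dl (y i)) t (u • x i) := by
  have hpos : (0 : ℝ) < A.card := by exact_mod_cast Finset.card_pos.2 hA
  induction t with
  | zero =>
    intro u h
    obtain ⟨i, hi⟩ := h [] rfl (by simp)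
    rw [List.prod_nil, one_mul] at hi
    calc (1 : ℝ) = W A (dl (y i)) 0 (u • x i) := by rw [W_zero, hi, dl_self]
      _ ≤ _ := Finset.single_le_sum (f := fun i => W A (dl (y i)) 0 (u • x i))
        (fun j _ => dl_nonneg _ _) (Finset.mem_univ i)
  | succ t ih =>
    intro u h
    have h2 : ∀ s ∈ A, (1 : ℝ) ≤ ∑ i, W A (dl (y i)) t (s • u • x i) := by
      intro s hs
      have := ih (s * u) fun l hl hlA => by
        obtain ⟨i, hi⟩ := h (l ++ [s]) (by simp [hl]) (by
          intro z hz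
          rcases List.mem_append.1 hz with hz | hz
          · exact hlA z hz
          · rw [List.mem_singleton.1 hz]; exact hs)
        refine ⟨i, ?_⟩
        rw [List.prod_append, List.prod_singleton, mul_assoc] at hi
        exact hi
      simpa only [mul_smul] using this
    have h3 := Finset.sum_le_sum h2
    rw [Finset.sum_const, nsmul_eq_mul, mul_one, Finset.sum_comm] at h3
    have h4 : ∑ i, W A (dl (y i)) (t + 1) (u • x i) =
        (A.card : ℝ)⁻¹ * ∑ i, ∑ s ∈ A, W A (dl (y i)) t (s • u • x i) := by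
      rw [Finset.mul_sum]
      refine Finset.sum_congr rfl fun i _ => ?_
      rw [W_succ]
      rfl
    rw [h4]
    calc (1 : ℝ) = (A.card : ℝ)⁻¹ * A.card := (inv_mul_cancel₀ hpos.ne').symm
      _ ≤ _ := mul_le_mul_of_nonneg_left h3 (by positivity)

end Pool.Agent.TH175.CC
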