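import Pool.Agent.TH175.CC.Walk

set_option autoImplicit false

namespace Pool.Agent.TH175.CC

open Finset Function MeasureTheory

variable {G X : Type} [Group G] [MulAction G X]

/-- The set of points is infinite and the action is transitive: a finite nonempty set is left
through an edge. -/
theorem exists_exit (A : Finset G) (hA : Subgroup.closure (A : Set G) = ⊤)
    (hinv : ∀ s ∈ A, s⁻¹ ∈ A) [Infinite X] [MulAction.IsPretransitive G X] (L : Set X)
    (hL : L.Finite) (hne : L.Nonempty) : ∃ x ∈ L, ∃ s ∈ A, s • x ∉ L := by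
  by_contra hcon
  push Not at hcon
  obtain ⟨x, hx⟩ := hne
  have h : ∀ g : G, ∀ y ∈ L, g • y ∈ L := by
    intro g
    have hg : g ∈ Subgroup.closure (A : Set G) := by rw [hA]; trivial
    induction hg using Subgroup.closure_induction with
    | mem s hs => exact fun y hy => hcon y hy s hs
    | one => intro y hy; rwa [one_smul]
    | mul a b _ _ ha hb => intro y hy; rw [mul_smul]; exact ha _ (hb y hy)
    | inv a _ ha =>
      intro y hy
      -- `a` is a bijection of the finite set `L`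
      have hmap : Set.MapsTo (fun z => a • z) L L := fun z hz => ha z hz
      have hsurj := ((hL.injOn_iff_bijOn_of_mapsTo hmap).1 (MulAction.injective a).injOn).surjOn
      obtain ⟨z, hz, hzy⟩ := hsurj hy
      have : a⁻¹ • y = z := by rw [← hzy]; simp
      rwa [this]
  apply hL.not_infinite
  have : L = Set.univ := by
    ext y
    simp only [Set.mem_univ, iff_true]
    obtain ⟨g, hg⟩ := MulAction.exists_smul_eq G x y
    rw [← hg]
    exact h g x hx
  rw [this]
  exact Set.infinite_univ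

/-- The key inequality. -/
theorem key (A : Finset G) (h1 : (1 : G) ∈ A) (hA : Subgroup.closure (A : Set G) = ⊤)
    (hinv : ∀ s ∈ A, s⁻¹ ∈ A) [Infinite X] [MulAction.IsPretransitive G X] {f : X → ℝ}
    (hf : (support f).Finite) (h0 : ∀ x, 0 ≤ f x) (hs : ∑' x, f x ≤ 1) :
    E f ^ 3 / (8 * A.card) ≤ D A f := by
  classical
  have hpos : (0 : ℝ) < A.card := by
    have := Finset.card_pos.2 ⟨1, h1⟩
    exact_mod_cast this
  have hD0 : ∀ s ∈ A, 0 ≤ ∑' x, (f (s • x) - f x) ^ 2 := fun s _ =>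
    tsum_nonneg fun x => sq_nonneg _
  rcases (support f).eq_empty_or_nonempty with hemp | hne
  · have : f = 0 := by
      rw [Function.support_eq_empty_iff] at hemp; exact hemp
    subst this
    have e : E (0 : X → ℝ) = 0 := by unfold E; simp
    rw [e]
    simp only [ne_eq, OfNat.ofNat_ne_zero, not_false_eq_true, zero_pow, zero_div]
    exact Finset.sum_nonneg hD0
  obtain ⟨x₀, hx₀, hmax⟩ := hf.toFinset.exists_max_image f (by
    obtain ⟨x, hx⟩ := hne
    exact ⟨x, hf.mem_toFinset.2 hx⟩)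
  have hx₀' : f x₀ ≠ 0 := by
    have := hf.mem_toFinset.1 hx₀
    exact this
  obtain ⟨M, hM⟩ : ∃ M, M = f x₀ := ⟨_, rfl⟩
  have hM0 : 0 < M := by rw [hM]; exact lt_of_le_of_ne (h0 x₀) (Ne.symm hx₀')
  have hle : ∀ x, f x ≤ M := by
    intro x
    by_cases hx : f x = 0
    · rw [hx]; exact hM0.le
    · rw [hM]; exact hmax x (hf.mem_toFinset.2 hx)
  -- the large values
  have hLfin : {x | M / 2 ≤ f x}.Finite := hf.subset fun x hx => by
    have : (M / 2 : ℝ) ≤ f x := hx
    exact ne_of_gt (lt_of_lt_of_le (by positivity) this)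
  obtain ⟨L, hL⟩ : ∃ L, L = hLfin.toFinset := ⟨_, rfl⟩
  have hmemL : ∀ x, x ∈ L ↔ M / 2 ≤ f x := by
    intro x; rw [hL, Set.Finite.mem_toFinset]; rfl
  have hLcard : (L.card : ℝ) * (M / 2) ≤ 1 := by
    calc (L.card : ℝ) * (M / 2) = ∑ x ∈ L, M / 2 := by rw [Finset.sum_const, nsmul_eq_mul]
      _ ≤ ∑ x ∈ L, f x := Finset.sum_le_sum fun x hx => (hmemL x).1 hx
      _ ≤ ∑' x, f x := (summable_fin hf).sum_le_tsum L fun x _ => h0 x
      _ ≤ 1 := hs
  -- the covering
  have hcov : Set.Ioc (M / 2) M ⊆ ⋃ q ∈ (L ×ˢ A), Set.Ioc (f (q.2 • q.1)) (f q.1) := by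
    intro t ht
    have hfin : {x | t ≤ f x}.Finite := hf.subset fun x hx => by
      have : t ≤ f x := hx
      exact ne_of_gt (lt_of_lt_of_le (lt_trans (by positivity) ht.1) this)
    obtain ⟨x, hx, s, hsA, hsx⟩ := exists_exit A hA hinv {x | t ≤ f x} hfin
      ⟨x₀, by show t ≤ f x₀; rw [← hM]; exact ht.2⟩
    simp only [Set.mem_iUnion]
    refine ⟨(x, s), Finset.mem_product.2 ⟨(hmemL x).2 (le_trans ht.1.le hx), hsA⟩, ?_, hx⟩
    exact not_le.1 hsx
  have hvol : M / 2 ≤ ∑ q ∈ L ×ˢ A, |f (q.2 • q.1) - f q.1| := by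
    have h2 : volume (Set.Ioc (M / 2) M) ≤
        ∑ q ∈ L ×ˢ A, volume (Set.Ioc (f (q.2 • q.1)) (f q.1)) :=
      (measure_mono hcov).trans (measure_biUnion_finset_le _ _)
    simp only [Real.volume_Ioc] at h2
    have h3 : ∑ q ∈ L ×ˢ A, ENNReal.ofReal (f q.1 - f (q.2 • q.1)) ≤
        ENNReal.ofReal (∑ q ∈ L ×ˢ A, |f (q.2 • q.1) - f q.1|) := by
      rw [ENNReal.ofReal_sum_of_nonneg fun q _ => abs_nonneg _]
      refine Finset.sum_le_sum fun q _ => ENNReal.ofReal_le_ofReal ?_
      rw [abs_sub_comm]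
      exact le_abs_self _
    have h4 := (ENNReal.ofReal_le_ofReal_iff (Finset.sum_nonneg fun q _ => abs_nonneg _)).1
      (h2.trans h3)
    linarith
  -- Cauchy-Schwarz
  have hcs : (M / 2) ^ 2 ≤ ((L.card : ℝ) * A.card) * D A f := by
    have h2 : (∑ q ∈ L ×ˢ A, |f (q.2 • q.1) - f q.1|) ^ 2 ≤
        ((L ×ˢ A).card : ℝ) * ∑ q ∈ L ×ˢ A, |f (q.2 • q.1) - f q.1| ^ 2 :=
      sq_sum_le_card_mul_sum_sq
    have h3 : ∑ q ∈ L ×ˢ A, |f (q.2 • q.1) - f q.1| ^ 2 ≤ D A f := by
      rw [Finset.sum_product_right]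
      refine Finset.sum_le_sum fun s _ => ?_
      simp only [sq_abs]
      refine Summable.sum_le_tsum (f := fun x => (f (s • x) - f x) ^ 2) L
        (fun x _ => sq_nonneg _) ?_
      refine summable_fin (((support_shift s hf).union hf).subset ?_)
      intro x hx
      by_contra hcon
      simp only [Set.mem_union, mem_support, not_or, not_not] at hcon
      apply hx
      show (f (s • x) - f x) ^ 2 = 0
      rw [hcon.1, hcon.2]; norm_num
    have h5 : ((L ×ˢ A).card : ℝ) = (L.card : ℝ) * A.card := by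
      rw [Finset.card_product]; push_cast; ring
    rw [h5] at h2
    calc (M / 2) ^ 2 ≤ (∑ q ∈ L ×ˢ A, |f (q.2 • q.1) - f q.1|) ^ 2 :=
          pow_le_pow_left₀ (by positivity) hvol 2
      _ ≤ _ := h2
      _ ≤ _ := mul_le_mul_of_nonneg_left h3 (by positivity)
  have hDnn : 0 ≤ D A f := Finset.sum_nonneg hD0
  have hMD : M ^ 3 ≤ 8 * A.card * D A f := by
    have h2 : M * (M / 2) ^ 2 ≤ M * (((L.card : ℝ) * A.card) * D A f) :=
      mul_le_mul_of_nonneg_left hcs hM0.le
    have h3 : M * (((L.card : ℝ) * A.card) * D A f) =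
        ((L.card : ℝ) * (M / 2)) * (2 * (A.card * D A f)) := by ring
    have h4 : ((L.card : ℝ) * (M / 2)) * (2 * (A.card * D A f)) ≤ 1 * (2 * (A.card * D A f)) :=
      mul_le_mul_of_nonneg_right hLcard (by positivity)
    nlinarith
  -- `E ≤ M`
  have hEM : E f ≤ M := by
    have h2 : E f ≤ ∑' x, M * f x := by
      refine Summable.tsum_le_tsum (fun x => ?_) (summ_sq hf) ((summable_fin hf).mul_left M)
      rw [pow_two]
      exact mul_le_mul_of_nonneg_right (hle x) (h0 x)
    rw [tsum_mul_left] at h2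
    calc E f ≤ M * ∑' x, f x := h2
      _ ≤ M * 1 := mul_le_mul_of_nonneg_left hs hM0.le
      _ = M := mul_one M
  have hE0 : 0 ≤ E f := tsum_nonneg fun x => sq_nonneg _
  rw [div_le_iff₀ (by positivity)]
  calc E f ^ 3 ≤ M ^ 3 := pow_le_pow_left₀ hE0 hEM 3
    _ ≤ 8 * A.card * D A f := hMD
    _ = D A f * (8 * A.card) := by ring

end Pool.Agent.TH175.CC
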