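import Mathlib

/-!
Random walks on infinite transitive `G`-sets: after `2 t` steps no point has probability more than
`(1 + 2 c t) ^ (-1/2)`, with `c = 1 / (8 |A| ^ 3)`.
-/

set_option autoImplicit false

namespace Pool.Agent.TH175.CC

open Finset Function

variable {G X : Type} [Group G] [MulAction G X]

/-- one step of the random walk -/
noncomputable def P (A : Finset G) (f : X → ℝ) : X → ℝ :=
  fun x => (A.card : ℝ)⁻¹ * ∑ s ∈ A, f (s • x)

/-- the square of the `ℓ²`-norm -/
noncomputable def E (f : X → ℝ) : ℝ := ∑' x, f x ^ 2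

theorem support_shift (s : G) {f : X → ℝ} (hf : (support f).Finite) :
    (support fun x => f (s • x)).Finite := by
  have : (support fun x => f (s • x)) = (fun x => s • x) ⁻¹' support f := rfl
  rw [this]
  exact hf.preimage (MulAction.injective s).injOn

theorem support_P (A : Finset G) {f : X → ℝ} (hf : (support f).Finite) :
    (support (P A f)).Finite := by
  have h : support (P A f) ⊆ ⋃ s ∈ A, support fun x => f (s • x) := by
    intro x hx
    simp only [Set.mem_iUnion, mem_support]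
    by_contra hcon
    push Not at hcon
    apply hx
    unfold P
    rw [Finset.sum_eq_zero hcon, mul_zero]
  exact (A.finite_toSet.biUnion fun s _ => support_shift s hf).subset h

theorem tsum_shift (s : G) (f : X → ℝ) : ∑' x, f (s • x) = ∑' x, f x :=
  (MulAction.toPerm s).tsum_eq f

theorem summable_fin {f : X → ℝ} (hf : (support f).Finite) : Summable f :=
  summable_of_hasFiniteSupport hf

theorem supp_sub {f g : X → ℝ} (hg : (support g).Finite) (h : ∀ x, g x = 0 → f x = 0) :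
    (support f).Finite := hg.subset fun x hx h0 => hx (h x h0)

theorem summ_sq {f : X → ℝ} (hf : (support f).Finite) : Summable fun x => f x ^ 2 :=
  summable_fin (supp_sub hf fun x h => by rw [h]; norm_num)

/-- pointwise variance inequality -/
theorem var_ineq {ι : Type} [DecidableEq ι] (A : Finset ι) (e : ι) (he : e ∈ A) (a : ι → ℝ) :
    ((A.card : ℝ)⁻¹ * ∑ s ∈ A, a s) ^ 2 ≤
      (A.card : ℝ)⁻¹ * ∑ s ∈ A, a s ^ 2 - ((A.card : ℝ) ^ 2)⁻¹ * ∑ s ∈ A, (a s - a e) ^ 2 := by
  have hpos : (0 : ℝ) < A.card := by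
    have := Finset.card_pos.2 ⟨e, he⟩
    exact_mod_cast this
  -- double sum
  have h1 : ∑ s ∈ A, ∑ t ∈ A, (a s - a t) ^ 2 =
      2 * (A.card * ∑ s ∈ A, a s ^ 2) - 2 * (∑ s ∈ A, a s) ^ 2 := by
    have : ∀ s ∈ A, ∑ t ∈ A, (a s - a t) ^ 2 =
        A.card * a s ^ 2 - 2 * (a s * ∑ t ∈ A, a t) + ∑ t ∈ A, a t ^ 2 := by
      intro s _
      have e1 : ∀ t ∈ A, (a s - a t) ^ 2 = a s ^ 2 - 2 * (a s * a t) + a t ^ 2 := by
        intro t _; ring
      rw [Finset.sum_congr rfl e1, Finset.sum_add_distrib, Finset.sum_sub_distrib,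
        Finset.sum_const, nsmul_eq_mul, ← Finset.mul_sum, ← Finset.mul_sum]
    rw [Finset.sum_congr rfl this, Finset.sum_add_distrib, Finset.sum_sub_distrib,
      Finset.sum_const, nsmul_eq_mul, ← Finset.mul_sum, ← Finset.mul_sum, ← Finset.sum_mul]
    ring
  have h2 : 2 * ∑ s ∈ A, (a s - a e) ^ 2 ≤ ∑ s ∈ A, ∑ t ∈ A, (a s - a t) ^ 2 := by
    have h3 : ∀ s ∈ A, (a s - a e) ^ 2 + (if s = e then ∑ t ∈ A, (a e - a t) ^ 2 else 0) ≤
        ∑ t ∈ A, (a s - a t) ^ 2 := by
      intro s _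
      by_cases hs : s = e
      · subst hs
        simp
      · rw [if_neg hs, add_zero]
        exact Finset.single_le_sum (f := fun t => (a s - a t) ^ 2) (fun t _ => sq_nonneg _) he
    have h4 := Finset.sum_le_sum h3
    rw [Finset.sum_add_distrib, Finset.sum_ite_eq' A e, if_pos he] at h4
    have h5 : ∑ t ∈ A, (a e - a t) ^ 2 = ∑ s ∈ A, (a s - a e) ^ 2 :=
      Finset.sum_congr rfl fun t _ => by ring
    rw [h5] at h4
    linarith
  rw [h1] at h2
  have h6 : ∑ s ∈ A, (a s - a e) ^ 2 ≤ A.card * ∑ s ∈ A, a s ^ 2 - (∑ s ∈ A, a s) ^ 2 := by linarith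
  have h7 := mul_le_mul_of_nonneg_left h6 (by positivity : (0 : ℝ) ≤ ((A.card : ℝ) ^ 2)⁻¹)
  have e1 : ((A.card : ℝ) ^ 2)⁻¹ * (A.card * ∑ s ∈ A, a s ^ 2 - (∑ s ∈ A, a s) ^ 2) =
      (A.card : ℝ)⁻¹ * ∑ s ∈ A, a s ^ 2 - ((A.card : ℝ)⁻¹ * ∑ s ∈ A, a s) ^ 2 := by
    field_simp
  rw [e1] at h7
  linarith

/-- the energy -/
noncomputable def D (A : Finset G) (f : X → ℝ) : ℝ := ∑ s ∈ A, ∑' x, (f (s • x) - f x) ^ 2

theorem E_P_le (A : Finset G) (h1 : (1 : G) ∈ A) {f : X → ℝ} (hf : (support f).Finite) :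
    E (P A f) ≤ E f - ((A.card : ℝ) ^ 2)⁻¹ * D A f := by
  classical
  have hpos : (0 : ℝ) < A.card := by
    have := Finset.card_pos.2 ⟨1, h1⟩
    exact_mod_cast this
  have hs : ∀ s ∈ A, Summable fun x => f (s • x) ^ 2 := fun s _ => summ_sq (support_shift s hf)
  have hd : ∀ s ∈ A, Summable fun x => (f (s • x) - f x) ^ 2 := by
    intro s _
    refine summable_fin (((support_shift s hf).union hf).subset ?_)
    intro x hx
    by_contra hcon
    simp only [Set.mem_union, mem_support, not_or, not_not] at hcon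
    apply hx
    show (f (s • x) - f x) ^ 2 = 0
    rw [hcon.1, hcon.2]; norm_num
  have hE : E f = (A.card : ℝ)⁻¹ * ∑ s ∈ A, ∑' x, f (s • x) ^ 2 := by
    have : ∀ s ∈ A, ∑' x, f (s • x) ^ 2 = E f := fun s _ => tsum_shift s fun x => f x ^ 2
    rw [Finset.sum_congr rfl this, Finset.sum_const, nsmul_eq_mul, ← mul_assoc,
      inv_mul_cancel₀ hpos.ne', one_mul]
  rw [hE]
  unfold D E
  rw [← Summable.tsum_finsetSum hs, ← Summable.tsum_finsetSum hd, ← tsum_mul_left, ← tsum_mul_left,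
    ← Summable.tsum_sub ((summable_sum hs).mul_left _) ((summable_sum hd).mul_left _)]
  refine Summable.tsum_le_tsum (fun x => ?_) (summ_sq (support_P A hf))
    (((summable_sum hs).mul_left _).sub ((summable_sum hd).mul_left _))
  have := var_ineq A (1 : G) h1 (fun s => f (s • x))
  simp only [one_smul] at this
  exact this

end Pool.Agent.TH175.CC
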